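import Pool.Agent.Helper88.CR.GoalsB
import Pool.Agent.Helper73.RR.RK

/-!
# Packet CR-RN: Rankin's parameter
-/

set_option autoImplicit false

open Finset Filter Topology

open scoped Classical

namespace Pool.Agent.Helper38.CR

open Pool.Agent.Helper88.RR Pool.Agent.Helper88.LG
open Pool.Agent.Helper73.RR (ev log_le_half sq_le_exp)

theorem rn : Pool.Agent.Helper88.CR.StmtRN := by
  obtain ⟨C1, hC1, hSM⟩ := Pool.Agent.Helper31.LG.sm
  obtain ⟨C2, hC2, hME⟩ := Pool.Agent.Helper69.LG.me
  set C := max C1 1 with hCdef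
  have hC1C : C1 ≤ C := le_max_left _ _
  have hC1' : 1 ≤ C := le_max_right _ _
  have hev1 : ∀ᶠ w : ℕ in atTop, 2 ≤ Real.log w :=
    (Real.tendsto_log_atTop.comp tendsto_natCast_atTop_atTop).eventually_ge_atTop 2
  have hev2 := (Real.tendsto_log_atTop.comp
    (Real.tendsto_log_atTop.comp tendsto_natCast_atTop_atTop)).eventually (ev C)
  obtain ⟨w0, hw0⟩ := eventually_atTop.1 ((hev1.and hev2).and (eventually_ge_atTop 2))
  refine ⟨128 + (6 + C2), by linarith, w0, fun w H hw hwH hH => ?_⟩
  obtain ⟨⟨hl1, hL1, hl3, hlC, hexp, hlog64⟩, hw2⟩ := hw0 w hw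
  simp only [Function.comp_apply] at hL1 hl3 hlC hexp hlog64
  set l1 := Real.log w with hl1def
  set L := Real.log l1 with hLdef
  set l3 := Real.log L with hl3def
  have hl10 : 0 < l1 := by linarith
  have hL0 : 0 < L := by linarith
  have hl30 : 0 < l3 := by linarith
  have hexpL : Real.exp L = l1 := Real.exp_log hl10
  have hw0' : (0 : ℝ) < w := by exact_mod_cast (by omega : 0 < w)
  have hexpl1 : Real.exp l1 = w := Real.exp_log hw0'
  rw [hexpL] at hexp
  have hH0 : (0 : ℝ) < H := by exact_mod_cast (by omega : 0 < H)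
  have hl3L : l3 ≤ L := (log_le_half hL0).trans (by linarith)
  set u := 64 * L / l3 with hu
  have hu64 : 64 ≤ u := by rw [hu, le_div_iff₀ hl30]; linarith
  have hu0 : 0 < u := by linarith
  have huL : u ≤ 64 * L := by rw [hu]; exact div_le_self (by positivity) hl3
  have hlogu1 : Real.log u ≤ L := (Real.log_le_log hu0 huL).trans hlog64
  have hlogu2 : l3 / 2 ≤ Real.log u := by
    rw [hu, Real.log_div (by positivity) hl30.ne', Real.log_mul (by norm_num) hL0.ne']
    have h1 := log_le_half hl30
    have h2 : 0 ≤ Real.log 64 := Real.log_nonneg (by norm_num)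
    linarith
  have hlogu3 : 4 * Real.log (8 * C) ≤ Real.log u := by linarith
  have hlogu4 : 1 ≤ Real.log u := by
    have h1 : Real.exp 1 ≤ u := by
      have := Real.exp_one_lt_d9
      linarith
    rwa [Real.le_log_iff_exp_le hu0]
  set v := l1 / u with hv
  have hv8 : 8 * L ≤ v := by
    rw [hv, le_div_iff₀ hu0]
    have : 8 * L * u ≤ 8 * L * (64 * L) := by gcongr
    nlinarith
  have hv0 : 0 < v := by linarith
  have hvl : v ≤ l1 := by rw [hv]; exact div_le_self hl10.le (by linarith)
  set t := ⌊Real.exp v⌋₊ with ht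
  have htv : (t : ℝ) ≤ Real.exp v := Nat.floor_le (Real.exp_pos v).le
  have htv' : Real.exp (v / 2) ≤ t := by
    have h1 : Real.exp v - 1 ≤ t := (Nat.sub_one_lt_floor (Real.exp v)).le
    have h2 : Real.exp v = Real.exp (v / 2) ^ 2 := by
      rw [← Real.exp_nat_mul]; congr 1; push_cast; ring
    have h3 : v / 2 + 1 ≤ Real.exp (v / 2) := Real.add_one_le_exp _
    have h4 : 2 ≤ Real.exp (v / 2) := by linarith
    nlinarith
  have ht2 : 2 ≤ t := by
    have h3 : v / 2 + 1 ≤ Real.exp (v / 2) := Real.add_one_le_exp _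
    have h4 : (2 : ℝ) ≤ t := by linarith
    exact_mod_cast h4
  have htw : t ≤ w := by
    have h1 : (t : ℝ) ≤ w := by
      rw [← hexpl1]
      exact htv.trans (Real.exp_le_exp.2 hvl)
    exact_mod_cast h1
  have ht0 : (0 : ℝ) < t := by exact_mod_cast (by omega : 0 < t)
  have hlt1 : v / 2 ≤ Real.log t := (Real.le_log_iff_exp_le ht0).2 htv'
  have hlt2 : Real.log t ≤ v := (Real.log_le_iff_le_exp ht0).2 htv
  have hlt0 : 0 < Real.log t := by linarith
  have hlH1 : l1 ≤ Real.log H := Real.log_le_log hw0' (by exact_mod_cast hwH)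
  have hlH2 : Real.log H ≤ l1 + 4 * L := by
    have h1 := Real.log_le_log hH0 hH
    rw [Real.log_mul hw0'.ne' (by positivity), Real.log_pow] at h1
    push_cast at h1
    exact h1
  -- smooth numbers
  set s := Real.log (u / (8 * C)) with hs
  have hsu : s = Real.log u - Real.log (8 * C) := Real.log_div hu0.ne' (by positivity)
  have hC8 : 0 ≤ Real.log (8 * C) := Real.log_nonneg (by linarith)
  have hs1 : 3 / 4 * Real.log u ≤ s := by rw [hsu]; linarith
  have hs2 : s ≤ Real.log u := by rw [hsu]; linarith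
  have hs0 : 0 ≤ s := by linarith
  have hsm := hSM H t s ht2 (by omega) hs0 (by linarith)
  have hes : Real.exp s = u / (8 * C) := Real.exp_log (by positivity)
  have hexpo : C1 * Real.exp s - s * Real.log H / (2 * Real.log t) ≤ -L := by
    have h1 : C1 * Real.exp s ≤ u / 8 := by
      rw [hes]
      calc C1 * (u / (8 * C)) ≤ C * (u / (8 * C)) := by gcongr
        _ = u / 8 := by field_simp
    have h2 : s * u / 2 ≤ s * Real.log H / (2 * Real.log t) := by
      rw [div_le_div_iff₀ (by norm_num) (by positivity)]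
      have h3 : u * Real.log t ≤ Real.log H := by
        calc u * Real.log t ≤ u * v := by gcongr
          _ = l1 := by rw [hv]; field_simp
          _ ≤ Real.log H := hlH1
      nlinarith
    have h3 : 3 / 8 * (u * Real.log u) ≤ s * u / 2 := by nlinarith
    have h4 : u ≤ u * Real.log u := le_mul_of_one_le_right hu0.le hlogu4
    have h5 : 32 * L ≤ u * Real.log u := by
      calc 32 * L = u * (l3 / 2) := by rw [hu]; field_simp; ring
        _ ≤ u * Real.log u := by gcongr
    linarith
  have hsm2 : ((Sm H t).card : ℝ) ≤ 2 * (H / l1) := by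
    have h1 : Real.exp (C1 * Real.exp s - s * Real.log H / (2 * Real.log t)) ≤ 1 / l1 := by
      refine (Real.exp_le_exp.2 hexpo).trans (le_of_eq ?_)
      rw [Real.exp_neg, hexpL, one_div]
    have h2 : Real.sqrt H ≤ H / l1 := by
      rw [le_div_iff₀ hl10]
      have h3 : l1 ≤ Real.sqrt H := by
        apply Real.le_sqrt_of_sq_le
        have h4 := sq_le_exp hl10.le
        rw [hexpl1] at h4
        exact h4.trans (by exact_mod_cast hwH)
      calc Real.sqrt H * l1 ≤ Real.sqrt H * Real.sqrt H := by gcongr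
        _ = H := Real.mul_self_sqrt hH0.le
    calc ((Sm H t).card : ℝ) ≤ Real.sqrt H +
          H * Real.exp (C1 * Real.exp s - s * Real.log H / (2 * Real.log t)) := hsm
      _ ≤ H / l1 + H * (1 / l1) := by gcongr
      _ = 2 * (H / l1) := by ring
  have hme := hME w H (by exact_mod_cast hw2) (by exact_mod_cast hwH)
  have hme2 : Real.log (Real.log H / Real.log w) + C2 / Real.log w ≤ (4 * L + C2) / l1 := by
    have h1 : Real.log (Real.log H / l1) ≤ 4 * L / l1 := by
      have h2 : Real.log H / l1 ≤ 1 + 4 * L / l1 := by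
        rw [div_le_iff₀ hl10]
        have : (1 + 4 * L / l1) * l1 = l1 + 4 * L := by field_simp
        linarith
      have h3 : 0 < Real.log H / l1 := by
        have : 0 < Real.log H := by linarith
        positivity
      have h4 := Real.log_le_sub_one_of_pos h3
      linarith
    rw [← hl1def, add_div]
    linarith
  have hS0 : ((S0 H t w).card : ℝ) ≤ H * ((6 + C2) * L / l1) := by
    have h1 := card_S0_le H t (w : ℝ) (by positivity)
    rw [Nat.floor_natCast] at h1
    refine h1.trans ?_
    have h2 := hme.trans hme2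
    calc ((Sm H t).card : ℝ) + H * ∑ p ∈ (Icc 1 H).filter (fun p : ℕ => p.Prime ∧ (w : ℝ) < (p : ℝ)),
          1 / (p : ℝ) ≤ 2 * (H / l1) + H * ((4 * L + C2) / l1) := by gcongr
      _ = H * ((2 + 4 * L + C2) / l1) := by ring
      _ ≤ H * ((6 + C2) * L / l1) := by
        gcongr
        nlinarith
  have hexp4 : Real.log w ^ 4 ≤ (t : ℝ) := by
    refine le_trans ?_ htv'
    rw [← hl1def, ← hexpL, ← Real.exp_nat_mul]
    apply Real.exp_le_exp.2
    push_cast
    linarith
  refine ⟨t, ht2, htw, hexp4, ?_, ?_, ?_⟩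
  · have e : ((Icc 1 H).filter (fun h : ℕ => ∀ p, p.Prime → t < p → p ≤ w → ¬ p ∣ h)).card =
        (S0 H t w).card := by
      rfl
    rw [e]
    refine hS0.trans ?_
    have h1 : 0 ≤ H * L / l1 := by positivity
    calc (H : ℝ) * ((6 + C2) * L / l1) = (6 + C2) * (H * L / l1) := by ring
      _ ≤ (128 + (6 + C2)) * (H * L / l1) := by nlinarith
  · refine le_trans ?_ hlt1
    have h1 : v / 2 = l1 * l3 / (128 * L) := by rw [hv, hu]; field_simp; norm_num
    rw [h1]
    apply div_le_div_of_nonneg_left (by positivity) (by positivity)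
    nlinarith
  · refine hlt2.trans ?_
    have h1 : v = l1 * l3 / (64 * L) := by rw [hv, hu]; field_simp
    rw [h1]
    apply div_le_div_of_nonneg_left (by positivity) (by positivity)
    nlinarith

end Pool.Agent.Helper38.CR
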